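import Pool.Agent.W811.Nd.Stm

/-! # ND-SOL : the spectrum in terms of solvability -/

set_option autoImplicit false

open Set Pool.Agent.W811.Stu Pool.Agent.W811.Nd

namespace Pool.Agent.W970.Nd

lemma floor_diff (γ : ℝ) (h0 : 0 < γ) (h1 : γ < 1) (n : ℤ) :
    (⌊((n : ℝ) + 1) * γ⌋ - ⌊(n : ℝ) * γ⌋ : ℤ) =
      if 1 - γ ≤ Int.fract ((n : ℝ) * γ) then 1 else 0 := by
  have e1 : (n : ℝ) * γ = ⌊(n : ℝ) * γ⌋ + Int.fract ((n : ℝ) * γ) :=
    (Int.floor_add_fract _).symm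
  have e2 := Int.fract_nonneg ((n : ℝ) * γ)
  have e3 := Int.fract_lt_one ((n : ℝ) * γ)
  split_ifs with h
  · have : ⌊((n : ℝ) + 1) * γ⌋ = ⌊(n : ℝ) * γ⌋ + 1 := by
      rw [Int.floor_eq_iff]
      push_cast
      constructor <;> nlinarith
    omega
  · push Not at h
    have : ⌊((n : ℝ) + 1) * γ⌋ = ⌊(n : ℝ) * γ⌋ := by
      rw [Int.floor_eq_iff]
      constructor <;> nlinarith
    omega

theorem sol : TSol := by
  intro lam γ E T h0 h1 hT
  set A : lp (fun _ : ℤ => ℂ) 2 →L[ℂ] lp (fun _ : ℤ => ℂ) 2 :=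
    algebraMap ℂ _ (E : ℂ) - T with hA
  have hA1 : ∀ (v : lp (fun _ : ℤ => ℂ) 2) (n : ℤ), (A v) n =
      -(v (n + 1) + v (n - 1)
        + (((lam * (if 1 - γ ≤ Int.fract ((n : ℝ) * γ) then (1 : ℝ) else 0) - E : ℝ)) : ℂ)
          * v n) := by
    intro v n
    have e1 : A v = (E : ℂ) • v - T v := by
      rw [hA, Algebra.algebraMap_eq_smul_one]
      rfl
    rw [e1]
    have e2 : ((E : ℂ) • v - T v) n = (E : ℂ) * v n - (T v) n := rfl
    rw [e2, hT v n, floor_diff γ h0 h1 n]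
    push_cast
    split_ifs <;> push_cast <;> ring
  have hspec : (E : ℂ) ∈ spectrum ℂ T ↔ ¬ Function.Bijective A := by
    rw [spectrum.mem_iff, ContinuousLinearMap.isUnit_iff_bijective]
  rw [hspec, not_iff_not]
  constructor
  · intro hb u hu
    obtain ⟨v, hv⟩ := hb.2 (-(⟨u, hu⟩ : lp (fun _ : ℤ => ℂ) 2))
    refine ⟨(v : ℤ → ℂ), ⟨lp.memℓp v, fun n => ?_⟩, ?_⟩
    · have h2 := hA1 v n
      rw [hv] at h2
      have h3 : (-(⟨u, hu⟩ : lp (fun _ : ℤ => ℂ) 2)) n = -u n := rfl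
      rw [h3] at h2
      exact (neg_injective h2).symm
    · rintro w ⟨hw, hw2⟩
      have h4 : A ⟨w, hw⟩ = -(⟨u, hu⟩ : lp (fun _ : ℤ => ℂ) 2) := by
        apply lp.ext
        funext n
        rw [hA1]
        have h3 : (-(⟨u, hu⟩ : lp (fun _ : ℤ => ℂ) 2)) n = -u n := rfl
        rw [h3, ← hw2 n]
      have h5 : (⟨w, hw⟩ : lp (fun _ : ℤ => ℂ) 2) = v := hb.1 (h4.trans hv.symm)
      rw [← h5]
  · intro h
    constructor
    · intro v w hvw
      have hu : Memℓp (fun n => -(A v) n) 2 := lp.memℓp (-(A v))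
      obtain ⟨z, _, hz⟩ := h _ hu
      have h1 : (v : ℤ → ℂ) = z := by
        apply hz
        refine ⟨lp.memℓp v, fun n => ?_⟩
        rw [hA1, neg_neg]
      have h2 : (w : ℤ → ℂ) = z := by
        apply hz
        refine ⟨lp.memℓp w, fun n => ?_⟩
        rw [hvw, hA1, neg_neg]
      exact lp.ext (h1.trans h2.symm)
    · intro u
      obtain ⟨v, ⟨hv, hv2⟩, _⟩ := h (fun n => -u n) (lp.memℓp (-u))
      refine ⟨⟨v, hv⟩, ?_⟩
      apply lp.ext
      funext n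
      rw [hA1]
      have := hv2 n
      simp only at this
      rw [show ((⟨v, hv⟩ : lp (fun _ : ℤ => ℂ) 2) : ℤ → ℂ) = v from rfl, this, neg_neg]

end Pool.Agent.W970.Nd
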